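import Pool.Agent.U562.WV.Stm
import Pool.Agent.H153R4.Pl

set_option autoImplicit false

/-! Project WV (helper562), job SLI: the Fourier slice theorem for the normal derivative and
Plancherel's theorem on the line. -/

open MeasureTheory Set Metric
open scoped ENNReal NNReal FourierTransform RealInnerProductSpace SchwartzMap

namespace Pool.Agent.U147.WV

open Pool.Agent.U562.WV

theorem exists_basis {b : Fin 3 → E 3} (hb : Orthonormal ℝ b) :
    ∃ B : OrthonormalBasis (Fin 3) ℝ (E 3), ⇑B = b := by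
  have hcard : Fintype.card (Fin 3) = Module.finrank ℝ (E 3) := by simp
  have h0 := coe_basisOfOrthonormalOfCardEqFinrank hb hcard
  refine ⟨(basisOfOrthonormalOfCardEqFinrank hb hcard).toOrthonormalBasis (by rw [h0]; exact hb), ?_⟩
  rw [Module.Basis.coe_toOrthonormalBasis, h0]

/-- the coordinates in an orthonormal frame -/
noncomputable def me (B : OrthonormalBasis (Fin 3) ℝ (E 3)) : ℝ × (ℝ × ℝ) ≃ᵐ E 3 :=
  (((MeasurableEquiv.refl ℝ).prodCongr MeasurableEquiv.finTwoArrow.symm).trans
    (MeasurableEquiv.piFinSuccAbove (fun _ => ℝ) 2).symm).trans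
    ((MeasurableEquiv.toLp 2 (Fin 3 → ℝ)).trans B.repr.symm.toHomeomorph.toMeasurableEquiv)

theorem me_apply (B : OrthonormalBasis (Fin 3) ℝ (E 3)) (x : ℝ × (ℝ × ℝ)) :
    me B x = pt B x.1 x.2 := by
  change B.repr.symm _ = _
  rw [← OrthonormalBasis.sum_repr_symm, Fin.sum_univ_three]
  rfl

theorem me_mp (B : OrthonormalBasis (Fin 3) ℝ (E 3)) :
    MeasurePreserving (me B) volume volume := by
  have h1 : MeasurePreserving ((MeasurableEquiv.refl ℝ).prodCongr
      (MeasurableEquiv.finTwoArrow (α := ℝ)).symm) volume volume :=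
    (MeasurePreserving.id volume).prod ((volume_preserving_finTwoArrow ℝ).symm _)
  have h2 : MeasurePreserving (MeasurableEquiv.piFinSuccAbove (fun _ : Fin 3 => ℝ) 2).symm
      volume volume := (volume_preserving_piFinSuccAbove (fun _ => ℝ) 2).symm _
  have h3 : MeasurePreserving (MeasurableEquiv.toLp 2 (Fin 3 → ℝ)) volume volume :=
    PiLp.volume_preserving_toLp (Fin 3)
  have h4 : MeasurePreserving B.repr.symm volume volume := B.repr.symm.measurePreserving
  exact (h4.comp h3).comp (h2.comp h1)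

theorem fub (B : OrthonormalBasis (Fin 3) ℝ (E 3)) {H : E 3 → ℂ} (hH : Integrable H) :
    ∫ x, H x = ∫ s : ℝ, ∫ z : ℝ × ℝ, H (pt B s z) := by
  have h1 : Integrable (fun x : ℝ × (ℝ × ℝ) => H (me B x)) (volume.prod volume) :=
    ((me_mp B).integrable_comp_emb (me B).measurableEmbedding).2 hH
  have h2 : ∫ x, H x = ∫ x : ℝ × (ℝ × ℝ), H (me B x) :=
    ((me_mp B).integral_comp (me B).measurableEmbedding H).symm
  rw [h2]
  have h3 := integral_prod _ h1
  refine h3.trans ?_
  simp only [me_apply]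

theorem inner_pt (B : OrthonormalBasis (Fin 3) ℝ (E 3)) (s : ℝ) (z : ℝ × ℝ) :
    ⟪pt B s z, B 0⟫ = z.1 ∧ ⟪pt B s z, B 1⟫ = z.2 ∧ ⟪pt B s z, B 2⟫ = s := by
  have h := orthonormal_iff_ite.1 B.orthonormal
  have e : ∀ i j : Fin 3, i ≠ j → ⟪B i, B j⟫ = 0 := fun i j hij => by rw [h, if_neg hij]
  have d : ∀ i : Fin 3, ⟪B i, B i⟫ = 1 := fun i => by rw [h, if_pos rfl]
  simp only [pt, inner_add_left, real_inner_smul_left]
  refine ⟨?_, ?_, ?_⟩
  · rw [d 0, e 1 0 (by decide), e 2 0 (by decide)]; ring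
  · rw [d 1, e 0 1 (by decide), e 2 1 (by decide)]; ring
  · rw [d 2, e 0 2 (by decide), e 1 2 (by decide)]; ring

theorem le_norm_pt (B : OrthonormalBasis (Fin 3) ℝ (E 3)) (s : ℝ) (z : ℝ × ℝ) :
    |s| ≤ ‖pt B s z‖ ∧ ‖z‖ ≤ ‖pt B s z‖ := by
  obtain ⟨h0, h1, h2⟩ := inner_pt B s z
  have key : ∀ i, |⟪pt B s z, B i⟫| ≤ ‖pt B s z‖ := by
    intro i
    have := abs_real_inner_le_norm (pt B s z) (B i)
    rwa [B.orthonormal.1 i, mul_one] at this
  have k0 := key 0
  have k1 := key 1
  have k2 := key 2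
  rw [h0] at k0
  rw [h1] at k1
  rw [h2] at k2
  refine ⟨k2, ?_⟩
  rw [Prod.norm_def, Real.norm_eq_abs, Real.norm_eq_abs]
  exact max_le k0 k1

theorem pt_cont (b : Fin 3 → E 3) : Continuous fun x : ℝ × (ℝ × ℝ) => pt b x.1 x.2 := by
  unfold pt
  fun_prop

section

variable {k : E 3 → ℂ} (hk : ContDiff ℝ 1 k) (hc : HasCompactSupport k) (v : E 3)

include hk in
theorem nd_cont : Continuous fun x => fderiv ℝ k x v :=
  (hk.continuous_fderiv one_ne_zero).clm_apply continuous_const

include hc in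
theorem nd_supp : HasCompactSupport fun x => fderiv ℝ k x v :=
  (hc.fderiv ℝ).comp_left (g := fun L : E 3 →L[ℝ] ℂ => L v) (by simp)

include hk hc in
theorem exists_bounds : ∃ R C : ℝ, 0 ≤ C ∧ (∀ x, ‖fderiv ℝ k x v‖ ≤ C) ∧
    ∀ x, R < ‖x‖ → fderiv ℝ k x v = 0 := by
  obtain ⟨C, hC⟩ := (nd_supp hc v).exists_bound_of_continuous (nd_cont hk v)
  obtain ⟨R, hR⟩ := (nd_supp hc v).isCompact.isBounded.subset_closedBall 0
  refine ⟨R, C, (norm_nonneg _).trans (hC 0), hC, fun x hx => ?_⟩
  by_contra h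
  have := hR (subset_tsupport _ h)
  rw [mem_closedBall_zero_iff] at this
  linarith

include hk hc in
theorem Q_cont (B : OrthonormalBasis (Fin 3) ℝ (E 3)) :
    Continuous (Q k B) ∧ HasCompactSupport (Q k B) := by
  obtain ⟨R, C, hC0, hC, hR⟩ := exists_bounds hk hc (B 2)
  constructor
  · unfold Q
    refine continuous_of_dominated (bound := (closedBall (0 : ℝ × ℝ) R).indicator fun _ => C)
      ?_ ?_ ?_ ?_
    · intro s
      exact ((nd_cont hk (B 2)).comp ((pt_cont B).comp (Continuous.prodMk_right s))).aestronglyMeasurable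
    · intro s
      refine Filter.Eventually.of_forall fun z => ?_
      by_cases hz : z ∈ closedBall (0 : ℝ × ℝ) R
      · rw [indicator_of_mem hz]
        exact hC _
      · rw [indicator_of_notMem hz, hR _ ?_, norm_zero]
        rw [mem_closedBall_zero_iff, not_le] at hz
        exact hz.trans_le (le_norm_pt B s z).2
    · exact (integrable_indicator_iff measurableSet_closedBall).2
        (integrableOn_const (isCompact_closedBall _ _).measure_lt_top.ne)
    · refine Filter.Eventually.of_forall fun z => ?_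
      exact (nd_cont hk (B 2)).comp ((pt_cont B).comp (Continuous.prodMk_left z))
  · refine HasCompactSupport.of_support_subset_isCompact (isCompact_closedBall (0 : ℝ) R) ?_
    intro s hs
    by_contra h
    apply hs
    rw [mem_closedBall_zero_iff, not_le, Real.norm_eq_abs] at h
    unfold Q
    rw [← integral_zero (ℝ × ℝ) ℂ (μ := volume)]
    refine integral_congr_ae (Filter.Eventually.of_forall fun z => ?_)
    exact hR _ (h.trans_le (le_norm_pt B s z).1)

include hk hc in
theorem fourier_Q (B : OrthonormalBasis (Fin 3) ℝ (E 3)) (σ : ℝ) :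
    𝓕 (Q k B) σ = (2 * Real.pi * Complex.I * σ) * 𝓕 k (σ • B 2) := by
  have hi : Integrable fun x => fderiv ℝ k x (B 2) :=
    (nd_cont hk (B 2)).integrable_of_hasCompactSupport (nd_supp hc (B 2))
  have hk1 : Integrable k := hk.continuous.integrable_of_hasCompactSupport hc
  have hk2 : Integrable (fderiv ℝ k) :=
    (hk.continuous_fderiv one_ne_zero).integrable_of_hasCompactSupport (hc.fderiv ℝ)
  have h1 : 𝓕 (Q k B) σ = 𝓕 (fun x => fderiv ℝ k x (B 2)) (σ • B 2) := by
    rw [Real.fourier_real_eq, Real.fourier_eq, fub B]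
    · refine integral_congr_ae (Filter.Eventually.of_forall fun s => ?_)
      simp only [Q]
      rw [Circle.smul_def, ← integral_smul]
      refine integral_congr_ae (Filter.Eventually.of_forall fun z => ?_)
      simp only [real_inner_smul_right, (inner_pt B s z).2.2, Circle.smul_def]
      rw [mul_comm s σ]
    · exact (Real.fourierIntegral_convergent_iff _).2 hi
  rw [h1]
  have h2 := congrFun (Real.fourier_fderiv hk1 (hk.differentiable one_ne_zero) hk2) (σ • B 2)
  have h3 := Real.fourier_continuousLinearMap_apply hk2 (a := B 2) (v := σ • B 2)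
  rw [h2] at h3
  rw [← h3, VectorFourier.fourierSMulRight_apply]
  have h4 : (-innerSL ℝ (E := E 3)) (σ • B 2) (B 2) = -σ := by
    have h5 : ⟪B 2, B 2⟫ = (1 : ℝ) := by
      rw [orthonormal_iff_ite.1 B.orthonormal, if_pos rfl]
    simp only [neg_apply, innerSL_apply_apply, real_inner_smul_left, h5, mul_one]
  rw [h4]
  simp only [Complex.real_smul, smul_eq_mul, Complex.ofReal_neg]
  ring

end

theorem t_SLI : S_SLI := by
  intro k hk hc b hb
  obtain ⟨B, rfl⟩ := exists_basis hb
  obtain ⟨q1, q2⟩ := Q_cont hk hc B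
  have h1 := Pool.Agent.H153R4.plancherel (Q k B) (q1.integrable_of_hasCompactSupport q2)
    (q1.memLp_of_hasCompactSupport q2)
  rw [← h1]
  refine le_of_eq (lintegral_congr fun σ => ?_)
  rw [fourier_Q hk hc B σ, enorm_mul, mul_pow]
  congr 1
  rw [← ofReal_norm, ← ENNReal.ofReal_pow (norm_nonneg _)]
  congr 1
  simp only [norm_mul, Complex.norm_real, Complex.norm_I, Complex.norm_ofNat, Real.norm_eq_abs,
    mul_one, mul_pow, sq_abs]

end Pool.Agent.U147.WV
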